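import Pool.Agent.helper94.PL.Spec

set_option autoImplicit false

open Complex Metric Set Filter Topology MeasureTheory MPS
open Pool.Agent.helper16.Multibrot

noncomputable section

namespace PLY

/-- the branch of the `n`-th root. -/
def BL0_g (n : ℕ) (y : ℂ) : ℂ := Complex.exp (Complex.log y / n)

theorem BL0_g_pow {n : ℕ} (hn : 2 ≤ n) {y : ℂ} (hy : y ≠ 0) : BL0_g n y ^ n = y := by
  have hn0 : (n : ℂ) ≠ 0 := by
    have : n ≠ 0 := by omega
    exact_mod_cast this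
  rw [BL0_g, ← Complex.exp_nat_mul, mul_div_cancel₀ _ hn0, Complex.exp_log hy]

theorem BL0_mem {y : ℂ} (hy : y ∈ closedBall (1 : ℂ) (1 / 3)) :
    y ∈ slitPlane ∧ 2 / 3 ≤ ‖y‖ := by
  rw [mem_closedBall, dist_eq_norm] at hy
  constructor
  · rw [mem_slitPlane_iff]
    left
    have h1 : |(y - 1).re| ≤ ‖y - 1‖ := Complex.abs_re_le_norm _
    have h2 := (abs_le.mp (h1.trans hy)).1
    simp only [sub_re, one_re] at h2
    linarith
  · have h1 : ‖(1 : ℂ)‖ ≤ ‖y‖ + ‖y - 1‖ := by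
      calc ‖(1 : ℂ)‖ = ‖y - (y - 1)‖ := by ring_nf
        _ ≤ _ := norm_sub_le _ _
    rw [norm_one] at h1
    linarith

theorem BL0_deriv {n : ℕ} {y : ℂ} (hy : y ∈ slitPlane) :
    HasDerivAt (BL0_g n) (BL0_g n y * (y⁻¹ / n)) y := by
  have h1 := (Complex.hasDerivAt_log hy).div_const (n : ℂ)
  exact h1.cexp

theorem BL0_norm {n : ℕ} (hn : 2 ≤ n) {y : ℂ} (hy : y ∈ closedBall (1 : ℂ) (1 / 3)) :
    ‖BL0_g n y * (y⁻¹ / n)‖ ≤ 3 / 4 := by
  obtain ⟨h1, h2⟩ := BL0_mem hy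
  have hy0 : 0 < ‖y‖ := by linarith
  have hnR : (2 : ℝ) ≤ n := by exact_mod_cast hn
  have hg : ‖BL0_g n y‖ ≤ max 1 ‖y‖ := by
    rw [BL0_g, Complex.norm_exp]
    have : (Complex.log y / n).re = Real.log ‖y‖ / n := by
      rw [Complex.div_natCast_re, Complex.log_re]
    rw [this]
    rcases le_total ‖y‖ 1 with h | h
    · refine le_trans ?_ (le_max_left _ _)
      rw [Real.exp_le_one_iff]
      exact div_nonpos_of_nonpos_of_nonneg (Real.log_nonpos hy0.le h) (by linarith)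
    · refine le_trans ?_ (le_max_right _ _)
      rw [← Real.le_log_iff_exp_le hy0]
      exact div_le_self (Real.log_nonneg h) (by linarith)
  rw [norm_mul, norm_div, norm_inv, Complex.norm_natCast]
  have h3 : ‖BL0_g n y‖ * ‖y‖⁻¹ ≤ 3 / 2 := by
    rw [← div_eq_mul_inv, div_le_iff₀ hy0]
    refine hg.trans (max_le ?_ ?_)
    · linarith
    · linarith
  have h4 : ‖y‖⁻¹ / (n : ℝ) = ‖y‖⁻¹ * (1 / n) := by ring
  rw [h4, ← mul_assoc]
  have h5 : (1 : ℝ) / n ≤ 1 / 2 := by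
    apply one_div_le_one_div_of_le <;> linarith
  have h6 : 0 ≤ (1 : ℝ) / n := by positivity
  calc ‖BL0_g n y‖ * ‖y‖⁻¹ * (1 / (n : ℝ)) ≤ 3 / 2 * (1 / 2) :=
        mul_le_mul h3 h5 h6 (by norm_num)
    _ = 3 / 4 := by norm_num

theorem BL0_lip {n : ℕ} (hn : 2 ≤ n) {x y : ℂ} (hx : x ∈ closedBall (1 : ℂ) (1 / 3))
    (hy : y ∈ closedBall (1 : ℂ) (1 / 3)) : ‖BL0_g n y - BL0_g n x‖ ≤ 3 / 4 * ‖y - x‖ := by
  refine Convex.norm_image_sub_le_of_norm_hasDerivWithin_le (f := BL0_g n)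
    (f' := fun y => BL0_g n y * (y⁻¹ / n)) (s := closedBall (1 : ℂ) (1 / 3)) ?_ ?_
    (convex_closedBall _ _) hx hy
  · intro z hz
    exact (BL0_deriv (BL0_mem hz).1).hasDerivWithinAt
  · intro z hz
    exact BL0_norm hn hz

/-- the iteration. -/
def BL0_E (n : ℕ) (c : ℂ) : ℕ → ℂ → ℂ
  | 0 => fun _ => 1
  | j + 1 => fun v => BL0_g n (BL0_E n c j (v ^ n) - c * v ^ n)

theorem BL0_one (n : ℕ) : BL0_g n 1 = 1 := by
  rw [BL0_g, Complex.log_one, zero_div, Complex.exp_zero]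

theorem BL0_pw {n : ℕ} (hn : 2 ≤ n) {v : ℂ} (hv : v ∈ ball (0 : ℂ) (1 / 5)) :
    v ^ n ∈ ball (0 : ℂ) (1 / 5) ∧ ‖v ^ n‖ ≤ 1 / 25 := by
  rw [mem_ball_zero_iff] at hv ⊢
  have h1 : ‖v ^ n‖ ≤ 1 / 25 := by
    rw [norm_pow]
    calc ‖v‖ ^ n ≤ ‖v‖ ^ 2 := pow_le_pow_of_le_one (norm_nonneg _) (by linarith) hn
      _ ≤ (1 / 5) ^ 2 := pow_le_pow_left₀ (norm_nonneg _) hv.le 2
      _ = 1 / 25 := by norm_num
  exact ⟨by linarith, h1⟩

theorem BL0_arg {n : ℕ} {c : ℂ} (hn : 2 ≤ n) (hc : ‖c‖ ≤ 2) {v a : ℂ}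
    (hv : v ∈ ball (0 : ℂ) (1 / 5)) (ha : ‖a - 1‖ ≤ 1 / 4) :
    a - c * v ^ n ∈ closedBall (1 : ℂ) (1 / 3) := by
  rw [mem_closedBall, dist_eq_norm]
  have h1 : ‖c * v ^ n‖ ≤ 2 * (1 / 25) := by
    rw [norm_mul]
    exact mul_le_mul hc (BL0_pw hn hv).2 (norm_nonneg _) (by norm_num)
  calc ‖a - c * v ^ n - 1‖ = ‖(a - 1) - c * v ^ n‖ := by ring_nf
    _ ≤ ‖a - 1‖ + ‖c * v ^ n‖ := norm_sub_le _ _
    _ ≤ 1 / 3 := by linarith

theorem BL0_bd {n : ℕ} {c : ℂ} (hn : 2 ≤ n) (hc : ‖c‖ ≤ 2) (j : ℕ) :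
    ∀ v ∈ ball (0 : ℂ) (1 / 5), ‖BL0_E n c j v - 1‖ ≤ 1 / 4 := by
  induction j with
  | zero =>
    intro v _
    simp [BL0_E]
  | succ j ih =>
    intro v hv
    have h1 := BL0_arg hn hc hv (ih _ (BL0_pw hn hv).1)
    have h2 : (1 : ℂ) ∈ closedBall (1 : ℂ) (1 / 3) := mem_closedBall_self (by norm_num)
    have h3 := BL0_lip hn h2 h1
    rw [BL0_one] at h3
    rw [mem_closedBall, dist_eq_norm] at h1
    show ‖BL0_g n (BL0_E n c j (v ^ n) - c * v ^ n) - 1‖ ≤ 1 / 4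
    linarith

theorem BL0_step {n : ℕ} {c : ℂ} (hn : 2 ≤ n) (hc : ‖c‖ ≤ 2) (j : ℕ) :
    ∀ v ∈ ball (0 : ℂ) (1 / 5), ‖BL0_E n c (j + 1) v - BL0_E n c j v‖ ≤ 1 / 4 * (3 / 4) ^ j := by
  induction j with
  | zero =>
    intro v hv
    have := BL0_bd hn hc 1 v hv
    simpa [BL0_E] using this
  | succ j ih =>
    intro v hv
    have hw := (BL0_pw hn hv).1
    have h1 := BL0_arg hn hc hv (BL0_bd hn hc j _ hw)
    have h2 := BL0_arg hn hc hv (BL0_bd hn hc (j + 1) _ hw)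
    have h3 := BL0_lip hn h1 h2
    have h4 := ih _ hw
    show ‖BL0_g n (BL0_E n c (j + 1) (v ^ n) - c * v ^ n) -
      BL0_g n (BL0_E n c j (v ^ n) - c * v ^ n)‖ ≤ _
    rw [sub_sub_sub_cancel_right] at h3
    rw [pow_succ]
    linarith

theorem BL0_diff {n : ℕ} {c : ℂ} (hn : 2 ≤ n) (hc : ‖c‖ ≤ 2) (j : ℕ) :
    DifferentiableOn ℂ (BL0_E n c j) (ball (0 : ℂ) (1 / 5)) := by
  induction j with
  | zero => exact differentiableOn_const _
  | succ j ih =>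
    intro v hv
    have hw := (BL0_pw hn hv).1
    have h1 : DifferentiableAt ℂ (BL0_E n c j) (v ^ n) := ih.differentiableAt (isOpen_ball.mem_nhds hw)
    have h2 : DifferentiableAt ℂ (fun v : ℂ => v ^ n) v := differentiableAt_pow n
    have h3 : DifferentiableAt ℂ (fun v : ℂ => BL0_E n c j (v ^ n) - c * v ^ n) v :=
      (h1.comp v h2).sub (h2.const_mul c)
    have h4 : DifferentiableAt ℂ (BL0_g n) (BL0_E n c j (v ^ n) - c * v ^ n) :=
      (BL0_deriv (BL0_mem (BL0_arg hn hc hv (BL0_bd hn hc j _ hw))).1).differentiableAt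
    exact (h4.comp v h3).differentiableWithinAt

theorem BL0_zero {n : ℕ} {c : ℂ} (hn : 2 ≤ n) (j : ℕ) : BL0_E n c j 0 = 1 := by
  induction j with
  | zero => rfl
  | succ j ih =>
    show BL0_g n (BL0_E n c j (0 ^ n) - c * 0 ^ n) = 1
    rw [zero_pow (by omega), ih, mul_zero, sub_zero, BL0_one]

theorem BL0 : BL0_stmt := by
  intro n c hn hc
  have hcs : ∀ v ∈ ball (0 : ℂ) (1 / 5), ∃ l : ℂ, Tendsto (fun j => BL0_E n c j v) atTop (𝓝 l) := by
    intro v hv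
    refine cauchySeq_tendsto_of_complete (cauchySeq_of_le_geometric (3 / 4) (1 / 4) (by norm_num) ?_)
    intro j
    rw [dist_comm, dist_eq_norm]
    exact BL0_step hn hc j v hv
  choose! E hE using hcs
  have hdist : ∀ j, ∀ v ∈ ball (0 : ℂ) (1 / 5), dist (BL0_E n c j v) (E v) ≤ (3 / 4) ^ j := by
    intro j v hv
    have h1 := dist_le_of_le_geometric_of_tendsto (3 / 4) (1 / 4) (by norm_num)
      (f := fun j => BL0_E n c j v) (a := E v) (by
        intro j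
        rw [dist_comm, dist_eq_norm]
        exact BL0_step hn hc j v hv) (hE v hv) j
    refine h1.trans (le_of_eq ?_)
    ring
  have hunif : TendstoUniformlyOn (BL0_E n c) E atTop (ball (0 : ℂ) (1 / 5)) := by
    rw [Metric.tendstoUniformlyOn_iff]
    intro ε hε
    have hlim : Tendsto (fun j : ℕ => ((3 : ℝ) / 4) ^ j) atTop (𝓝 0) :=
      tendsto_pow_atTop_nhds_zero_of_lt_one (by norm_num) (by norm_num)
    filter_upwards [hlim.eventually (gt_mem_nhds hε)] with j hj v hv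
    rw [dist_comm]
    exact (hdist j v hv).trans_lt hj
  refine ⟨E, ?_, ?_, ?_⟩
  · exact hunif.tendstoLocallyUniformlyOn.differentiableOn
      (Eventually.of_forall fun j => BL0_diff hn hc j) isOpen_ball
  · have h0 : (0 : ℂ) ∈ ball (0 : ℂ) (1 / 5) := mem_ball_self (by norm_num)
    refine tendsto_nhds_unique (hE 0 h0) ?_
    simp only [BL0_zero hn]
    exact tendsto_const_nhds
  · intro v hv
    have hw := (BL0_pw hn hv).1
    have h1 : Tendsto (fun j => BL0_E n c (j + 1) v ^ n) atTop (𝓝 (E v ^ n)) :=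
      ((tendsto_add_atTop_iff_nat 1).mpr (hE v hv)).pow n
    have h2 : Tendsto (fun j => BL0_E n c j (v ^ n) - c * v ^ n) atTop (𝓝 (E (v ^ n) - c * v ^ n)) :=
      (hE _ hw).sub_const _
    refine tendsto_nhds_unique h1 (h2.congr fun j => ?_)
    have h3 := BL0_mem (BL0_arg hn hc hv (BL0_bd hn hc j _ hw))
    exact (BL0_g_pow hn (slitPlane_ne_zero h3.1)).symm

end PLY
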