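import Pool.Agent.helper94.PL.Spec

set_option autoImplicit false

open Complex Metric Set Filter Topology MeasureTheory MPS
open Pool.Agent.helper16.Multibrot

noncomputable section

namespace PLY

theorem ETA_diff (n K : ℕ) (c : ℂ) : Differentiable ℂ ((fc n c)^[K]) := by
  have h1 : Differentiable ℂ (fc n c) := by
    intro x
    exact (differentiableAt_pow n).add_const c
  exact h1.iterate K

theorem ETA_norm_exp {s : ℂ} (hs : s ∈ RH) (θ : ℝ) :
    1 < ‖Complex.exp (s + 2 * Real.pi * θ * I)‖ := by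
  rw [Complex.norm_exp]
  have : (s + 2 * Real.pi * θ * I).re = s.re := by
    simp
  rw [this]
  exact Real.one_lt_exp_iff.mpr hs

theorem ETA_RH_open : IsOpen RH := isOpen_lt continuous_const Complex.continuous_re

theorem ETA_div {ΛR : ℝ} (hΛ : 0 < ΛR) {s : ℂ} (hs : s ∈ RH) (j : ℕ) : s / (ΛR : ℂ) ^ j ∈ RH := by
  show 0 < (s / (ΛR : ℂ) ^ j).re
  rw [← Complex.ofReal_pow, Complex.div_ofReal_re]
  exact div_pos hs (pow_pos hΛ j)

theorem ETA (h1 : KOE_stmt) (h2 : SCV_stmt) (h3 : RFE_stmt) (h4 : BNZ_stmt) : ETA_stmt := by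
  intro n K c z E Θ hn hc hE hK hz hμ hΘ
  set μ := mlt n K c z with hμd
  set F := (fc n c)^[K] with hF
  have hμ0 : μ ≠ 0 := by
    intro h
    rw [h, norm_zero] at hμ
    linarith
  obtain ⟨r, hr, lam, hl1, hl2, hl3, hl4⟩ := h1 F z μ (ETA_diff n K c) hz rfl hμ
  obtain ⟨hR1, hR2, hR3⟩ := h3 n c E hn hc hE
  obtain ⟨-, hB⟩ := h4 n c E hn hc hE
  set ΛR : ℝ := (n : ℝ) ^ K with hΛR
  have hΛ1 : 1 < ΛR := one_lt_pow₀ (by exact_mod_cast (by omega : 1 < n)) hK.ne'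
  have hΛ0 : 0 < ΛR := by linarith
  have hΛC : ((n : ℂ) ^ K) = (ΛR : ℂ) := by
    rw [hΛR]
    push_cast
    rfl
  have hΛC0 : (ΛR : ℂ) ≠ 0 := by exact_mod_cast hΛ0.ne'
  -- the sequence
  let ρ : ℝ → ℕ → ℂ → ℂ := fun θ j s => ry E θ (s / (ΛR : ℂ) ^ j)
  let a : ℝ → ℕ → ℂ → ℂ := fun θ j s => μ ^ j * lam (ρ θ j s)
  have hconv : ∀ θ ∈ Θ, ∀ C : Set ℂ, C ⊆ RH → IsCompact C → ∃ j₀ : ℕ, ∀ j, j₀ ≤ j → ∀ s ∈ C,
      ρ θ j s ∈ ball z r := by
    intro θ hθ C hC hCc
    have := h2 n c E θ ΛR z hn hc hE hΛ1 (hΘ θ hθ).2.2.2 C hC hCc r hr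
    obtain ⟨j₀, hj₀⟩ := eventually_atTop.mp this
    refine ⟨j₀, fun j hj s hs => ?_⟩
    rw [mem_ball, dist_eq_norm]
    exact hj₀ j hj s hs
  have hshift : ∀ θ ∈ Θ, ∀ s ∈ RH, ∀ j, F (ρ θ (j + 1) s) = ρ θ j s := by
    intro θ hθ s hs j
    show (fc n c)^[K] (ry E θ (s / (ΛR : ℂ) ^ (j + 1))) = ry E θ (s / (ΛR : ℂ) ^ j)
    rw [hR2 θ K (hΘ θ hθ).2.2.1 _ (ETA_div hΛ0 hs (j + 1)), hΛC]
    congr 1
    rw [pow_succ]
    field_simp
  have hstep : ∀ θ ∈ Θ, ∀ s ∈ RH, ∀ j, ρ θ j s ∈ ball z r → ρ θ (j + 1) s ∈ ball z r →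
      a θ (j + 1) s = a θ j s := by
    intro θ hθ s hs j hj hj1
    have e1 := hl4 (ρ θ (j + 1) s) hj1 (by rw [hshift θ hθ s hs j]; exact hj)
    rw [hshift θ hθ s hs j] at e1
    show μ ^ (j + 1) * lam (ρ θ (j + 1) s) = μ ^ j * lam (ρ θ j s)
    rw [e1, pow_succ]
    ring
  have hconst : ∀ θ ∈ Θ, ∀ s ∈ RH, ∀ j₀, (∀ j, j₀ ≤ j → ρ θ j s ∈ ball z r) →
      ∀ j, j₀ ≤ j → a θ j s = a θ j₀ s := by
    intro θ hθ s hs j₀ h j hj
    induction j, hj using Nat.le_induction with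
    | base => rfl
    | succ j hj ih => rw [hstep θ hθ s hs j (h j hj) (h (j + 1) (by omega)), ih]
  have hJ : ∀ θ ∈ Θ, ∀ s ∈ RH, ∃ j₀ : ℕ, ∀ j, j₀ ≤ j → ρ θ j s ∈ ball z r := by
    intro θ hθ s hs
    obtain ⟨j₀, h⟩ := hconv θ hθ {s} (by rintro x rfl; exact hs) isCompact_singleton
    exact ⟨j₀, fun j hj => h j hj s rfl⟩
  choose! J hJ using hJ
  let η : ℝ → ℂ → ℂ := fun θ s => a θ (J θ s) s
  have hη : ∀ θ ∈ Θ, ∀ s ∈ RH, ∀ j₀, (∀ j, j₀ ≤ j → ρ θ j s ∈ ball z r) →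
      ∀ j, j₀ ≤ j → η θ s = a θ j s := by
    intro θ hθ s hs j₀ h j hj
    have e1 := hconst θ hθ s hs (J θ s) (hJ θ hθ s hs) (max j (J θ s)) (le_max_right _ _)
    have e2 := hconst θ hθ s hs j (fun i hi => h i (hj.trans hi)) (max j (J θ s)) (le_max_left _ _)
    show a θ (J θ s) s = a θ j s
    rw [← e1, e2]
  refine ⟨η, ?_, ?_⟩
  · intro θ hθ
    refine ⟨?_, ?_⟩
    · intro s hs
      obtain ⟨δ, hδ, hδs⟩ := Metric.isOpen_iff.mp ETA_RH_open s hs
      have hsub : closedBall s (δ / 2) ⊆ RH :=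
        (closedBall_subset_ball (by linarith)).trans hδs
      obtain ⟨j₀, hj₀⟩ := hconv θ hθ (closedBall s (δ / 2)) hsub (isCompact_closedBall _ _)
      have heq : η θ =ᶠ[𝓝 s] a θ j₀ := by
        filter_upwards [closedBall_mem_nhds s (by linarith : 0 < δ / 2)] with x hx
        exact hη θ hθ x (hsub hx) j₀ (fun j hj => hj₀ j hj x hx) j₀ le_rfl
      have hin : ρ θ j₀ s ∈ ball z r := hj₀ j₀ le_rfl s (mem_closedBall_self (by linarith))
      have d1 : DifferentiableAt ℂ (ry E θ) (s / (ΛR : ℂ) ^ j₀) :=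
        (hR1 θ).differentiableAt (ETA_RH_open.mem_nhds (ETA_div hΛ0 hs j₀))
      have d2 : DifferentiableAt ℂ (fun s : ℂ => s / (ΛR : ℂ) ^ j₀) s :=
        differentiableAt_id.div_const _
      have d3 : DifferentiableAt ℂ (ρ θ j₀) s :=
        DifferentiableAt.comp (g := ry E θ) (f := fun s : ℂ => s / (ΛR : ℂ) ^ j₀) s d1 d2
      have d4 : DifferentiableAt ℂ lam (ρ θ j₀ s) := hl1.differentiableAt (isOpen_ball.mem_nhds hin)
      have d5 : DifferentiableAt ℂ (a θ j₀) s :=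
        (DifferentiableAt.comp (g := lam) (f := ρ θ j₀) s d4 d3).const_mul _
      exact (d5.congr_of_eventuallyEq heq).differentiableWithinAt
    · intro s hs
      refine ⟨?_, ?_⟩
      · have hin := hJ θ hθ s hs (J θ s) le_rfl
        show μ ^ (J θ s) * lam (ρ θ (J θ s) s) ≠ 0
        refine mul_ne_zero (pow_ne_zero _ hμ0) ?_
        intro h0
        have hne : ρ θ (J θ s) s ≠ z :=
          (hB _ (ETA_norm_exp (ETA_div hΛ0 hs (J θ s)) θ)).2.1 K z hK hz
        exact hne (hl2 hin (mem_ball_self hr) (h0.trans hl3.symm))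
      · have hΛs : (ΛR : ℂ) * s ∈ RH := by
          show 0 < ((ΛR : ℂ) * s).re
          rw [Complex.re_ofReal_mul]
          exact mul_pos hΛ0 hs
        rw [hΛC]
        have key : ∀ j, ρ θ (j + 1) ((ΛR : ℂ) * s) = ρ θ j s := by
          intro j
          show ry E θ ((ΛR : ℂ) * s / (ΛR : ℂ) ^ (j + 1)) = ry E θ (s / (ΛR : ℂ) ^ j)
          congr 1
          rw [pow_succ]
          field_simp
        have e1 := hη θ hθ s hs (J θ s) (hJ θ hθ s hs) (max (J θ s) (J θ ((ΛR : ℂ) * s)))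
          (le_max_left _ _)
        have e2 := hη θ hθ _ hΛs (J θ ((ΛR : ℂ) * s)) (hJ θ hθ _ hΛs)
          (max (J θ s) (J θ ((ΛR : ℂ) * s)) + 1) ((le_max_right _ _).trans (Nat.le_succ _))
        rw [e1, e2]
        show μ ^ (max (J θ s) (J θ ((ΛR : ℂ) * s)) + 1) *
          lam (ρ θ (max (J θ s) (J θ ((ΛR : ℂ) * s)) + 1) ((ΛR : ℂ) * s)) =
          μ * (μ ^ (max (J θ s) (J θ ((ΛR : ℂ) * s))) * lam (ρ θ (max (J θ s) (J θ ((ΛR : ℂ) * s))) s))
        rw [key, pow_succ]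
        ring
  · intro θ hθ θ' hθ' s hs s' hs' heq
    have hb : |θ - θ'| < 1 := by
      obtain ⟨a1, a2, -, -⟩ := hΘ θ hθ
      obtain ⟨b1, b2, -, -⟩ := hΘ θ' hθ'
      rw [abs_lt]
      constructor <;> linarith
    -- the integers
    have hint : ∀ j, J θ s ≤ j → J θ' s' ≤ j → ∃ m : ℤ,
        s / (ΛR : ℂ) ^ j - s' / (ΛR : ℂ) ^ j + 2 * Real.pi * (θ - θ') * I = 2 * Real.pi * m * I := by
      intro j hj hj'
      have e1 := hη θ hθ s hs (J θ s) (hJ θ hθ s hs) j hj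
      have e2 := hη θ' hθ' s' hs' (J θ' s') (hJ θ' hθ' s' hs') j hj'
      rw [e1, e2] at heq
      have e3 : lam (ρ θ j s) = lam (ρ θ' j s') := mul_left_cancel₀ (pow_ne_zero j hμ0) heq
      have e4 : ρ θ j s = ρ θ' j s' := hl2 (hJ θ hθ s hs j hj) (hJ θ' hθ' s' hs' j hj') e3
      exact hR3 θ θ' _ (ETA_div hΛ0 hs j) _ (ETA_div hΛ0 hs' j) e4
    have hlim : Tendsto (fun j : ℕ => ‖s - s'‖ * (ΛR⁻¹) ^ j) atTop (𝓝 0) := by
      have := (tendsto_pow_atTop_nhds_zero_of_lt_one (inv_nonneg.mpr hΛ0.le)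
        (inv_lt_one_of_one_lt₀ hΛ1)).const_mul ‖s - s'‖
      rwa [mul_zero] at this
    have hpos : 0 < 2 * Real.pi * (1 - |θ - θ'|) :=
      mul_pos (by positivity) (by linarith)
    obtain ⟨j₁, hj₁⟩ := eventually_atTop.mp (hlim.eventually (gt_mem_nhds hpos))
    have hzero : ∀ j, J θ s ≤ j → J θ' s' ≤ j → j₁ ≤ j →
        (s - s') / (ΛR : ℂ) ^ j = -(2 * Real.pi * (θ - θ') * I) := by
      intro j hj hj' hj1
      obtain ⟨m, hm⟩ := hint j hj hj'
      have hn1 : ‖(s - s') / (ΛR : ℂ) ^ j‖ = ‖s - s'‖ * (ΛR⁻¹) ^ j := by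
        rw [norm_div, norm_pow, Complex.norm_of_nonneg hΛ0.le, inv_pow, div_eq_mul_inv]
      have hn2 := hj₁ j hj1
      rw [← hn1] at hn2
      have hm0 : m = 0 := by
        have e5 : ‖(2 * Real.pi * m * I : ℂ)‖ = 2 * Real.pi * |(m : ℝ)| := by
          rw [norm_mul, Complex.norm_I, mul_one, norm_mul, norm_mul, Complex.norm_real,
            Complex.norm_intCast]
          simp [abs_of_pos Real.pi_pos]
        have e6 : ‖(2 * Real.pi * (θ - θ') * I : ℂ)‖ = 2 * Real.pi * |θ - θ'| := by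
          rw [norm_mul, Complex.norm_I, mul_one, norm_mul, norm_mul, Complex.norm_real,
            ← Complex.ofReal_sub, Complex.norm_real]
          simp [abs_of_pos Real.pi_pos]
        have e7 : ‖(2 * Real.pi * m * I : ℂ)‖ < 2 * Real.pi := by
          rw [← hm, ← sub_div]
          calc ‖(s - s') / (ΛR : ℂ) ^ j + 2 * Real.pi * (θ - θ') * I‖
              ≤ ‖(s - s') / (ΛR : ℂ) ^ j‖ + ‖(2 * Real.pi * (θ - θ') * I : ℂ)‖ := norm_add_le _ _
            _ < 2 * Real.pi * (1 - |θ - θ'|) + 2 * Real.pi * |θ - θ'| := by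
                rw [e6]
                linarith
            _ = 2 * Real.pi := by ring
        rw [e5] at e7
        have e8 : |(m : ℝ)| < 1 := by
          have h2pi : 0 < 2 * Real.pi := by positivity
          by_contra hcon
          push Not at hcon
          have := mul_le_mul_of_nonneg_left hcon h2pi.le
          linarith
        have e9 : |m| < 1 := by exact_mod_cast e8
        exact Int.abs_lt_one_iff.mp e9
      rw [hm0, ← sub_div] at hm
      simp only [Int.cast_zero, mul_zero, zero_mul] at hm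
      linear_combination hm
    set j := max (max (J θ s) (J θ' s')) j₁ with hj
    have f1 : J θ s ≤ j := (le_max_left _ _).trans (le_max_left _ _)
    have f2 : J θ' s' ≤ j := (le_max_right _ _).trans (le_max_left _ _)
    have f3 : j₁ ≤ j := le_max_right _ _
    have g1 := hzero j f1 f2 f3
    have g2 := hzero (j + 1) (by omega) (by omega) (by omega)
    have hss : s = s' := by
      have g3 : (s - s') / (ΛR : ℂ) ^ j = (s - s') / (ΛR : ℂ) ^ (j + 1) := by rw [g1, g2]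
      have hp : (ΛR : ℂ) ^ j ≠ 0 := pow_ne_zero _ hΛC0
      rw [div_eq_div_iff hp (pow_ne_zero _ hΛC0)] at g3
      have g4 : (s - s') * ((ΛR : ℂ) ^ j * ((ΛR : ℂ) - 1)) = 0 := by linear_combination g3
      have hΛ1C : (ΛR : ℂ) - 1 ≠ 0 := by
        intro h
        have : (ΛR : ℂ) = ((1 : ℝ) : ℂ) := by
          push_cast
          linear_combination h
        have := Complex.ofReal_injective this
        linarith
      rcases mul_eq_zero.mp g4 with h | h
      · exact sub_eq_zero.mp h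
      · exact absurd h (mul_ne_zero hp hΛ1C)
    refine ⟨?_, hss⟩
    rw [hss, sub_self, zero_div] at g1
    have g5 : (2 * Real.pi * (θ - θ') * I : ℂ) = 0 := by linear_combination g1
    have h2pi : (2 * Real.pi : ℂ) ≠ 0 := by
      have : (2 * Real.pi : ℝ) ≠ 0 := by positivity
      exact_mod_cast this
    have g6 : ((θ : ℂ) - θ') = 0 := by
      rcases mul_eq_zero.mp g5 with h | h
      · rcases mul_eq_zero.mp h with h' | h'
        · exact absurd h' h2pi
        · exact h'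
      · exact absurd h Complex.I_ne_zero
    have g7 : ((θ - θ' : ℝ) : ℂ) = 0 := by
      push_cast
      exact g6
    have g8 : θ - θ' = 0 := by exact_mod_cast g7
    linarith

end PLY
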